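import Pool.Agent.H642.KK.Stm

/-!
# Task KK-NT (helper571 for helper642): uniqueness of the Pelczynski compactum
-/

set_option autoImplicit false

namespace Pool.Agent.H571.KK

open Set TopologicalSpace
open Pool.Agent.H642.CK (Io fin_io clopen_fin)
open Pool.Agent.H642.KK (L2 NT S_VT S_NT)

/-- both finite with the same number of elements, or both infinite -/
def R {X Y : Type} (E : Set X) (F : Set Y) : Prop :=
  (E.Finite ∧ F.Finite ∧ E.ncard = F.ncard) ∨ (E.Infinite ∧ F.Infinite)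

theorem R.symm {X Y : Type} {E : Set X} {F : Set Y} (h : R E F) : R F E := by
  rcases h with ⟨h1, h2, h3⟩ | ⟨h1, h2⟩
  · exact Or.inl ⟨h2, h1, h3.symm⟩
  · exact Or.inr ⟨h2, h1⟩

theorem R.empty {X Y : Type} {E : Set X} {F : Set Y} (h : R E F) : E = ∅ ↔ F = ∅ := by
  rcases h with ⟨h1, h2, h3⟩ | ⟨h1, h2⟩
  · rw [← Set.ncard_eq_zero h1, ← Set.ncard_eq_zero h2, h3]
  · constructor
    · intro h
      exact absurd h h1.nonempty.ne_empty
    · intro h
      exact absurd h h2.nonempty.ne_empty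

section

variable {Y : Type} [TopologicalSpace Y]

theorem io_of_fin [T1Space Y] {F : Set Y} (hF : IsClopen F) (hf : F.Finite) {x : Y} (hx : x ∈ F) :
    Io x := by
  have h1 : (F \ {x}).Finite := hf.subset diff_subset
  have h2 : ({x} : Set Y) = F \ (F \ {x}) := by
    ext y
    simp only [mem_singleton_iff, mem_diff]
    constructor
    · rintro rfl
      exact ⟨hx, fun h => h.2 rfl⟩
    · rintro ⟨h3, h4⟩
      by_contra h5
      exact h4 ⟨h3, h5⟩
  unfold Io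
  rw [h2]
  exact hF.isOpen.sdiff h1.isClosed

theorem inf_of_limit [T1Space Y] {F : Set Y} (hF : IsClopen F) {x : Y} (hx : x ∈ F) (h : ¬ Io x) :
    F.Infinite := fun hf => h (io_of_fin hF hf hx)

theorem exists_limit [CompactSpace Y] {F : Set Y} (hF : IsClopen F) (h : F.Infinite) :
    ∃ x ∈ F, ¬ Io x := by
  by_contra hc
  push Not at hc
  exact h (fin_io hF.isClosed hc)

variable [CompactSpace Y] [T2Space Y] [TotallyDisconnectedSpace Y]

theorem split_inf (hY : NT Y) {F : Set Y} (hF : IsClopen F) (h : F.Infinite) :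
    ∃ B : Set Y, IsClopen B ∧ B ⊆ F ∧ B.Infinite ∧ (F \ B).Infinite := by
  obtain ⟨x, hx, hxl⟩ := exists_limit hF h
  obtain ⟨y, hy, hyx, hyl⟩ := hY.perf x hxl F hF.isOpen hx
  have hopen : IsOpen ({y}ᶜ : Set Y) := isClosed_singleton.isOpen_compl
  have hb := isTopologicalBasis_isClopen (X := Y)
  obtain ⟨V, hV, hxV, hVy⟩ := hb.exists_subset_of_mem_open (show x ∈ ({y}ᶜ : Set Y) from
    fun h => hyx h.symm) hopen
  have hV' : IsClopen V := hV
  refine ⟨F ∩ V, hF.inter hV', inter_subset_left, ?_, ?_⟩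
  · exact inf_of_limit (hF.inter hV') ⟨hx, hxV⟩ hxl
  · refine inf_of_limit (hF.diff (hF.inter hV')) (x := y) ⟨hy, ?_⟩ hyl
    rintro ⟨-, h1⟩
    exact hVy h1 rfl

theorem choose_fin (hY : NT Y) {F : Set Y} (hF : IsClopen F) (h : F.Infinite) (n : ℕ) :
    ∃ B : Set Y, IsClopen B ∧ B ⊆ F ∧ B.Finite ∧ B.ncard = n := by
  have h1 : (F ∩ {x | Io x}).Infinite := by
    intro hf
    have h2 : IsClopen (F ∩ {x | Io x}) := clopen_fin hf fun x hx => hx.2
    have h3 : (F \ (F ∩ {x | Io x})).Nonempty := (h.diff hf).nonempty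
    obtain ⟨x, hx, hxi⟩ := hY.dense _ (hF.diff h2).isOpen h3
    exact hx.2 ⟨hx.1, hxi⟩
  obtain ⟨t, ht, htf, htn⟩ := h1.exists_subset_ncard_eq n
  exact ⟨t, clopen_fin htf fun x hx => (ht hx).2, fun x hx => (ht hx).1, htf, htn⟩

theorem forth (hY : NT Y) {X : Type} {E A : Set X} {F : Set Y} (hF : IsClopen F) (hA : A ⊆ E)
    (h : R E F) : ∃ B : Set Y, IsClopen B ∧ B ⊆ F ∧ R A B ∧ R (E \ A) (F \ B) := by
  rcases h with ⟨h1, h2, h3⟩ | ⟨h1, h2⟩
  · have hAf : A.Finite := h1.subset hA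
    have h4 : A.ncard ≤ F.ncard := by
      rw [← h3]
      exact Set.ncard_le_ncard hA h1
    obtain ⟨B, hB, hBn⟩ := Set.exists_subset_card_eq h4
    have hBf : B.Finite := h2.subset hB
    refine ⟨B, clopen_fin hBf fun x hx => io_of_fin hF h2 (hB hx), hB, Or.inl ⟨hAf, hBf, hBn.symm⟩,
      Or.inl ⟨h1.subset diff_subset, h2.subset diff_subset, ?_⟩⟩
    rw [Set.ncard_sdiff hA hAf, Set.ncard_sdiff hB hBf, h3, hBn]
  · by_cases hAf : A.Finite
    · obtain ⟨B, hB1, hB2, hB3, hB4⟩ := choose_fin hY hF h2 A.ncard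
      exact ⟨B, hB1, hB2, Or.inl ⟨hAf, hB3, hB4.symm⟩, Or.inr ⟨h1.diff hAf, h2.diff hB3⟩⟩
    · by_cases hEA : (E \ A).Finite
      · obtain ⟨B, hB1, hB2, hB3, hB4⟩ := choose_fin hY hF h2 (E \ A).ncard
        refine ⟨F \ B, hF.diff hB1, diff_subset, Or.inr ⟨hAf, h2.diff hB3⟩, ?_⟩
        rw [diff_diff_cancel_left hB2]
        exact Or.inl ⟨hEA, hB3, hB4.symm⟩
      · obtain ⟨B, hB1, hB2, hB3, hB4⟩ := split_inf hY hF h2
        exact ⟨B, hB1, hB2, Or.inr ⟨hAf, hB3⟩, Or.inr ⟨hEA, hB4⟩⟩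

theorem univ_inf (hY : NT Y) : (univ : Set Y).Infinite := by
  obtain ⟨x, hx⟩ := hY.ne
  exact inf_of_limit isClopen_univ (mem_univ x) hx

end

/-- **Task KK-NT.** -/
theorem t_NT : S_VT → S_NT := by
  intro hVT X Y _ _ _ _ _ _ _ _ _ _ hX hY
  refine hVT X Y R (Or.inr ⟨univ_inf hX, univ_inf hY⟩) (fun E F _ _ h => h.empty) ?_ ?_
  · intro E F A _ hF _ hA h
    exact forth hY hF hA h
  · intro E F B hE _ _ hB h
    obtain ⟨A, h1, h2, h3, h4⟩ := forth hX hE hB h.symm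
    exact ⟨A, h1, h2, h3.symm, h4.symm⟩

end Pool.Agent.H571.KK
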